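import Mathlib

/-!
WILD-FINB (helper376 for helper558): commutative algebra. In a normal Noetherian domain of
dimension at most two there are finitely many maximal ideals at which a given ideal is not principal.
-/

set_option autoImplicit false

universe u

namespace Pool.Agent.W376.WD

section

variable {R : Type u} [CommRing R] [IsDomain R]

lemma min_dvd {L : Type u} [CommRing L] [IsDomain L] [ValuationRing L] (φ : R →+* L)
    (S : Finset R) (hS : S.Nonempty) : ∃ z ∈ S, ∀ g ∈ S, φ z ∣ φ g := by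
  induction hS using Finset.Nonempty.cons_induction with
  | singleton a => exact ⟨a, Finset.mem_singleton_self a, fun g hg => by
      rw [Finset.mem_singleton] at hg
      rw [hg]⟩
  | cons a s ha hs ih =>
    obtain ⟨z, hz, h⟩ := ih
    rcases ValuationRing.dvd_total (φ z) (φ a) with h1 | h1
    · refine ⟨z, Finset.mem_cons_of_mem hz, fun g hg => ?_⟩
      rw [Finset.mem_cons] at hg
      rcases hg with rfl | hg
      · exact h1
      · exact h g hg
    · refine ⟨a, Finset.mem_cons_self _ _, fun g hg => ?_⟩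
      rw [Finset.mem_cons] at hg
      rcases hg with rfl | hg
      · exact dvd_rfl
      · exact h1.trans (h g hg)

lemma valRing [IsNoetherianRing R] [IsIntegrallyClosed R]
    (hch : ∀ p q : Ideal R, p.IsPrime → q.IsPrime → p ≠ ⊥ → p < q → q.IsMaximal) (q : Ideal R)
    [hq : q.IsPrime] (hqm : ¬ q.IsMaximal) : ValuationRing (Localization.AtPrime q) := by
  have hN : IsNoetherianRing (Localization.AtPrime q) :=
    IsLocalization.isNoetherianRing q.primeCompl _ inferInstance
  have hC : IsIntegrallyClosed (Localization.AtPrime q) :=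
    isIntegrallyClosed_of_isLocalization _ q.primeCompl q.primeCompl_le_nonZeroDivisors
  have h := tfae_of_isNoetherianRing_of_isLocalRing_of_isDomain (R := Localization.AtPrime q)
  have h31 := h.out 3 1
  apply h31.1
  refine ⟨hC, ?_⟩
  intro P hP hPp
  rw [← Localization.AtPrime.eq_maximalIdeal_iff_under_eq]
  have h1 : P.under R ≤ q := by
    intro a ha
    by_contra h2
    apply hPp.ne_top
    rw [Ideal.eq_top_iff_one]
    have h3 : IsUnit (algebraMap R (Localization.AtPrime q) a) :=
      IsLocalization.map_units (M := q.primeCompl) _ ⟨a, h2⟩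
    have h4 := (Ideal.eq_top_of_isUnit_mem P ha h3)
    rw [h4]
    trivial
  have h2 : P.under R ≠ ⊥ := by
    intro h3
    apply hP
    have h4 := IsLocalization.map_under q.primeCompl (Localization.AtPrime q) P
    rw [h3, Ideal.map_bot] at h4
    exact h4.symm
  by_contra hne
  exact hqm (hch _ q inferInstance hq h2 (lt_of_le_of_ne h1 hne))

/-- the multipliers which make the ideal principal -/
def Mult (𝔞 : Ideal R) : Set R := {c | ∃ z ∈ 𝔞, z ≠ 0 ∧ ∀ g ∈ 𝔞, z ∣ c * g}

lemma max_of [IsNoetherianRing R] [IsIntegrallyClosed R]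
    (hch : ∀ p q : Ideal R, p.IsPrime → q.IsPrime → p ≠ ⊥ → p < q → q.IsMaximal) (𝔞 : Ideal R)
    (h𝔞 : 𝔞 ≠ ⊥) (q : Ideal R) (hq : q.IsPrime) (hS : ∀ c ∈ Mult 𝔞, c ∈ q) : q.IsMaximal := by
  by_contra hqm
  by_cases hq0 : q = ⊥
  · obtain ⟨z, hz, hz0⟩ := Submodule.exists_mem_ne_zero_of_ne_bot h𝔞
    have h1 := hS z ⟨z, hz, hz0, fun g _ => dvd_mul_right _ _⟩
    rw [hq0, Ideal.mem_bot] at h1
    exact hz0 h1
  · have hV := valRing hch q hqm
    obtain ⟨S, hSp⟩ := (inferInstance : IsNoetherianRing R).noetherian 𝔞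
    have hSne : S.Nonempty := by
      rw [Finset.nonempty_iff_ne_empty]
      rintro rfl
      apply h𝔞
      rw [← hSp]
      simp
    obtain ⟨z, hz, hdiv⟩ := min_dvd (algebraMap R (Localization.AtPrime q)) S hSne
    have hinj : Function.Injective (algebraMap R (Localization.AtPrime q)) :=
      IsLocalization.injective _ q.primeCompl_le_nonZeroDivisors
    have hz𝔞 : z ∈ 𝔞 := by
      rw [← hSp]
      exact Submodule.subset_span hz
    have hz0 : z ≠ 0 := by
      rintro rfl
      apply h𝔞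
      rw [← hSp, Submodule.span_eq_bot]
      intro g hg
      have h1 := hdiv g hg
      rw [map_zero, zero_dvd_iff] at h1
      exact hinj (by rw [h1, map_zero])
    have hv : ∀ g : S, ∃ v, v ∉ q ∧ z ∣ v * g.1 := by
      intro g
      obtain ⟨y, hy⟩ := hdiv g.1 g.2
      obtain ⟨⟨u, v⟩, huv⟩ := IsLocalization.surj q.primeCompl y
      refine ⟨v, v.2, u, ?_⟩
      apply hinj
      rw [map_mul, map_mul, hy, ← huv]
      ring
    choose v hvq hvd using hv
    have hc : ∏ g, v g ∉ q := by
      intro h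
      rw [Ideal.IsPrime.prod_mem_iff] at h
      obtain ⟨g, -, hg⟩ := h
      exact hvq g hg
    apply hc
    apply hS
    refine ⟨z, hz𝔞, hz0, ?_⟩
    intro g hg
    rw [← hSp] at hg
    induction hg using Submodule.span_induction with
    | mem g hg =>
      classical
      have h1 := Finset.mul_prod_erase Finset.univ v (Finset.mem_univ ⟨g, hg⟩)
      rw [← h1]
      obtain ⟨w, hw⟩ := hvd ⟨g, hg⟩
      refine ⟨(∏ x ∈ Finset.univ.erase ⟨g, hg⟩, v x) * w, ?_⟩
      calc v ⟨g, hg⟩ * (∏ x ∈ Finset.univ.erase ⟨g, hg⟩, v x) * g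
          = (∏ x ∈ Finset.univ.erase ⟨g, hg⟩, v x) * (v ⟨g, hg⟩ * g) := by ring
        _ = _ := by rw [hw]; ring
    | zero => simp
    | add a b _ _ ha hb =>
      rw [mul_add]
      exact dvd_add ha hb
    | smul r a _ ha =>
      rw [smul_eq_mul, mul_left_comm]
      exact Dvd.dvd.mul_left ha r

/-- finiteness -/
theorem fin_alg [IsNoetherianRing R] [IsIntegrallyClosed R]
    (hch : ∀ p q : Ideal R, p.IsPrime → q.IsPrime → p ≠ ⊥ → p < q → q.IsMaximal) (𝔞 : Ideal R)
    (h𝔞 : 𝔞 ≠ ⊥) : {m : Ideal R | m.IsMaximal ∧ ∀ c ∈ Mult 𝔞, c ∈ m}.Finite := by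
  refine ((Ideal.span (Mult 𝔞)).finite_minimalPrimes_of_isNoetherianRing R).subset ?_
  rintro m ⟨hm, hc⟩
  refine ⟨⟨hm.isPrime, Ideal.span_le.2 hc⟩, ?_⟩
  rintro p ⟨hp, hpc⟩ hpm
  have h1 := max_of hch 𝔞 h𝔞 p hp fun c hc' => hpc (Ideal.subset_span hc')
  exact (h1.eq_of_le hm.ne_top hpm).ge

end

end Pool.Agent.W376.WD
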