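import Pool.Agent.W558.WD.Stms
import Pool.Agent.W973.CHAIN
import Pool.Agent.W376.WD.FinAlg

/-!
WILD-FINB (helper376 for helper558): there are finitely many bad points.
-/

set_option autoImplicit false

universe u

open Polynomial

namespace Pool.Agent.W376.WD

open Pool.Agent.W558

section prelim

variable {k E : Type u} [Field k] [Field E] [Algebra k E] {A O : Subalgebra k E}

/-- the elements of `A` which are units at `O` -/
def Un (A O : Subalgebra k E) (e : E) : Prop := e ∈ A ∧ e ≠ 0 ∧ e⁻¹ ∈ O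

lemma Un.one : Un A O (1 : E) := ⟨A.one_mem, one_ne_zero, by rw [inv_one]; exact O.one_mem⟩

lemma Un.mul {a b : E} (ha : Un A O a) (hb : Un A O b) : Un A O (a * b) :=
  ⟨A.mul_mem ha.1 hb.1, mul_ne_zero ha.2.1 hb.2.1, by
    rw [mul_inv]
    exact O.mul_mem ha.2.2 hb.2.2⟩

/-- common multipliers -/
lemma common {ι : Type*} [Finite ι] (C : ι → E → Prop)
    (hC : ∀ i e a, C i e → a ∈ A → C i (a * e)) (h : ∀ i, ∃ e, Un A O e ∧ C i e) :
    ∃ e, Un A O e ∧ ∀ i, C i e := by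
  classical
  have : Fintype ι := Fintype.ofFinite ι
  choose e he hCe using h
  have hU : ∀ s : Finset ι, Un A O (∏ i ∈ s, e i) := by
    intro s
    induction s using Finset.induction_on with
    | empty => rw [Finset.prod_empty]; exact Un.one
    | insert a s ha ih => rw [Finset.prod_insert ha]; exact (he a).mul ih
  refine ⟨∏ i, e i, hU _, fun i => ?_⟩
  rw [← Finset.mul_prod_erase Finset.univ e (Finset.mem_univ i), mul_comm]
  exact hC i _ _ (hCe i) (hU _).1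

/-- derivations preserving `A` and the `x i A` -/
def ThA (A : Subalgebra k E) {I : Type} (x : I → E) : Set (Derivation k E E) :=
  {D | (∀ a ∈ A, D a ∈ A) ∧ ∀ i, ∃ w ∈ A, D (x i) = w * x i}

lemma ThA.smul {I : Type} {x : I → E} {D : Derivation k E E} (hD : D ∈ ThA A x) {a : E}
    (ha : a ∈ A) : a • D ∈ ThA A x := by
  refine ⟨fun b hb => ?_, fun i => ?_⟩
  · rw [Derivation.smul_apply, smul_eq_mul]
    exact A.mul_mem ha (hD.1 b hb)
  · obtain ⟨w, hw, h⟩ := hD.2 i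
    refine ⟨a * w, A.mul_mem ha hw, ?_⟩
    rw [Derivation.smul_apply, smul_eq_mul, h]
    ring

lemma ThA.add {I : Type} {x : I → E} {D D' : Derivation k E E} (hD : D ∈ ThA A x)
    (hD' : D' ∈ ThA A x) : D + D' ∈ ThA A x := by
  refine ⟨fun b hb => ?_, fun i => ?_⟩
  · rw [Derivation.add_apply]
    exact A.add_mem (hD.1 b hb) (hD'.1 b hb)
  · obtain ⟨w, hw, h⟩ := hD.2 i
    obtain ⟨w', hw', h'⟩ := hD'.2 i
    refine ⟨w + w', A.add_mem hw hw', ?_⟩
    rw [Derivation.add_apply, h, h']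
    ring

lemma ThA.zero {I : Type} {x : I → E} : (0 : Derivation k E E) ∈ ThA A x :=
  ⟨fun _ _ => by simp [A.zero_mem], fun i => ⟨0, A.zero_mem, by simp⟩⟩

/-- clearing the denominators of a derivation -/
lemma clear [Algebra.FiniteType k A] {I : Type} [Finite I] {x : I → E} (hxA : ∀ i, x i ∈ A)
    (hx0 : ∀ i, x i ≠ 0) (hfr : ∀ z ∈ O, ∃ a ∈ A, ∃ b, Un A O b ∧ z = a * b⁻¹)
    (D : Derivation k E E) (hD : ∀ a ∈ A, D a ∈ O)
    (hDx : ∀ i, (∃ w ∈ O, D (x i) = w * x i) ∨ (x i)⁻¹ ∈ O) :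
    ∃ e, Un A O e ∧ e • D ∈ ThA A x := by
  obtain ⟨S, hS⟩ := (Algebra.FiniteType.out : (⊤ : Subalgebra k A).FG)
  -- denominators on the generators
  obtain ⟨e1, he1, h1⟩ := common (A := A) (O := O) (ι := S) (fun g e => e * D (g.1 : E) ∈ A)
    (fun g e a h ha => by
      rw [mul_assoc]
      exact A.mul_mem ha h) (fun g => by
      obtain ⟨a, ha, b, hb, h⟩ := hfr _ (hD g.1 g.1.2)
      refine ⟨b, hb, ?_⟩
      rw [h, mul_comm, inv_mul_cancel_right₀ hb.2.1]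
      exact ha)
  have h2 : ∀ a ∈ A, e1 * D a ∈ A := by
    have h3 : ∀ a : A, a ∈ Algebra.adjoin k (S : Set A) → e1 * D (a : E) ∈ A := by
      intro a ha
      induction ha using Algebra.adjoin_induction with
      | mem a ha => exact h1 ⟨a, ha⟩
      | algebraMap r =>
        have : D ((algebraMap k A r : A) : E) = 0 := D.map_algebraMap r
        rw [this, mul_zero]
        exact A.zero_mem
      | add a b _ _ ha hb =>
        rw [Subalgebra.coe_add, map_add, mul_add]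
        exact A.add_mem ha hb
      | mul a b _ _ ha hb =>
        rw [Subalgebra.coe_mul, Derivation.leibniz, smul_eq_mul, smul_eq_mul]
        have : e1 * ((a : E) * D (b : E) + (b : E) * D (a : E)) =
            (a : E) * (e1 * D (b : E)) + (b : E) * (e1 * D (a : E)) := by ring
        rw [this]
        exact A.add_mem (A.mul_mem a.2 hb) (A.mul_mem b.2 ha)
    intro a ha
    exact h3 ⟨a, ha⟩ (by rw [hS]; exact Algebra.mem_top)
  -- the boundary
  obtain ⟨e2, he2, h3⟩ := common (A := A) (O := O) (ι := I)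
    (fun i e => ∃ w ∈ A, e * (e1 * D (x i)) = w * x i)
    (fun i e a h ha => by
      obtain ⟨w, hw, h⟩ := h
      exact ⟨a * w, A.mul_mem ha hw, by rw [mul_assoc, h]; ring⟩) (fun i => by
      rcases hDx i with ⟨w, hw, h⟩ | h
      · obtain ⟨a, ha, b, hb, hab⟩ := hfr w hw
        refine ⟨b, hb, a * e1, A.mul_mem ha he1.1, ?_⟩
        rw [h, hab]
        have := hb.2.1
        field_simp
      · exact ⟨x i, ⟨hxA i, hx0 i, h⟩, e1 * D (x i), h2 _ (hxA i), by ring⟩)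
  refine ⟨e2 * e1, he2.mul he1, fun a ha => ?_, fun i => ?_⟩
  · rw [Derivation.smul_apply, smul_eq_mul, mul_assoc]
    exact A.mul_mem he2.1 (h2 a ha)
  · obtain ⟨w, hw, h⟩ := h3 i
    exact ⟨w, hw, by rw [Derivation.smul_apply, smul_eq_mul, mul_assoc, h]⟩

lemma frc (hO : IsPt A O) : ∀ z ∈ O, ∃ a ∈ A, ∃ b, Un A O b ∧ z = a * b⁻¹ := by
  intro z hz
  obtain ⟨a, ha, b, hb, hb0, hbi, h⟩ := hO.frac z hz
  exact ⟨a, ha, b, ⟨hb, hb0, hbi⟩, h⟩

lemma deriv_mem (hA : A ≤ O) (hfr : ∀ z ∈ O, ∃ a ∈ A, ∃ b, Un A O b ∧ z = a * b⁻¹)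
    {D : Derivation k E E} (hD : ∀ a ∈ A, D a ∈ A) : ∀ z ∈ O, D z ∈ O := by
  intro z hz
  obtain ⟨a, ha, b, hb, rfl⟩ := hfr z hz
  rw [Derivation.leibniz, Derivation.leibniz_inv, smul_eq_mul, smul_eq_mul, smul_eq_mul]
  refine O.add_mem (O.mul_mem (hA ha) ?_) (O.mul_mem hb.2.2 (hA (hD a ha)))
  rw [neg_mul]
  exact O.neg_mem (O.mul_mem (O.pow_mem hb.2.2 2) (hA (hD b hb.1)))

end prelim

section model

variable {k E : Type u} [Field k] [Field E] [Algebra k E] {T I : Type}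

lemma ThA_sub_Th (M : LM (⊥ : Subalgebra k E) ⊤ T I) {t : T} {O : Subalgebra k E}
    (hO : IsPt (M.A t) O) {D : Derivation k E E} (hD : D ∈ ThA (M.A t) (M.x t)) :
    D ∈ Th O (bdy M O) := by
  have hDO := deriv_mem hO.le (frc hO) hD.1
  refine ⟨hDO, ?_⟩
  rintro z ⟨t', i, hA', hnu, w, hw, hw0, hwi, rfl⟩
  obtain ⟨v, hv, hDx⟩ := hD.2 i
  have hr := M.ratio hO.le hA' i
  have hr' := M.ratio hA' hO.le i
  set x := M.x t i with hx
  set x' := M.x t' i with hx'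
  have hx0 : x ≠ 0 := M.x0 t i
  have hx0' : x' ≠ 0 := M.x0 t' i
  -- `x' = (x'/x) x`
  refine ⟨D (w * (x' / x)) * (w⁻¹ * (x / x')) + v, O.add_mem (O.mul_mem (hDO _ (O.mul_mem hw hr))
    (O.mul_mem hwi hr')) (hO.le hv), ?_⟩
  have h1 : w * x' = (w * (x' / x)) * x := by field_simp
  rw [h1, Derivation.leibniz, smul_eq_mul, smul_eq_mul, hDx]
  field_simp
  ring

/-- the ideal of the values -/
def Jd (A : Subalgebra k E) {I : Type} (x : I → E) (f b : E) : Ideal A where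
  carrier := {z | ∃ D ∈ ThA A x, (z : E) = b ^ 2 * D f}
  add_mem' := by
    rintro z z' ⟨D, hD, h⟩ ⟨D', hD', h'⟩
    refine ⟨D + D', ThA.add hD hD', ?_⟩
    rw [Subalgebra.coe_add, h, h', Derivation.add_apply]
    ring
  zero_mem' := ⟨0, ThA.zero, by simp⟩
  smul_mem' := by
    rintro c z ⟨D, hD, h⟩
    refine ⟨(c : E) • D, ThA.smul hD c.2, ?_⟩
    rw [smul_eq_mul, Subalgebra.coe_mul, h, Derivation.smul_apply, smul_eq_mul]
    ring

lemma mem_Jd {A : Subalgebra k E} {x : I → E} {a b : E} (ha : a ∈ A) (hb : b ∈ A) (hb0 : b ≠ 0)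
    {D : Derivation k E E} (hD : D ∈ ThA A x) : b ^ 2 * D (a * b⁻¹) ∈ A := by
  have : b ^ 2 * D (a * b⁻¹) = b * D a - a * D b := by
    rw [Derivation.leibniz, Derivation.leibniz_inv, smul_eq_mul, smul_eq_mul, smul_eq_mul]
    field_simp
    ring
  rw [this]
  exact A.sub_mem (A.mul_mem hb (hD.1 a ha)) (A.mul_mem ha (hD.1 b hb))

/-- the criterion for good points -/
lemma gd_of (M : LM (⊥ : Subalgebra k E) ⊤ T I) [Finite I] {t : T} {O : Subalgebra k E}
    (hft : Algebra.FiniteType k (M.A t)) (hO : IsPt (M.A t) O) {a b : E} (ha : a ∈ M.A t)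
    (hb : b ∈ M.A t) (hb0 : b ≠ 0) {c : M.A t} (hc : ¬ NU O (c : E))
    (hM : c ∈ Mult (Jd (M.A t) (M.x t) (a * b⁻¹) b)) : Gd O (bdy M O) (a * b⁻¹) := by
  obtain ⟨z, ⟨θ, hθ, hz⟩, hz0, hdiv⟩ := hM
  obtain ⟨hc0, hci⟩ := (not_NU_iff (hO.le c.2)).1 hc
  have hz0' : (z : E) ≠ 0 := fun h => hz0 (Subtype.ext h)
  have hθf : θ (a * b⁻¹) ≠ 0 := by
    intro h
    rw [h, mul_zero] at hz
    exact hz0' hz
  refine ⟨θ, ThA_sub_Th M hO hθ, hθf, ?_⟩
  intro θ' hθ'
  obtain ⟨e, he, heθ⟩ := clear (A := M.A t) (O := O) (M.xA t) (M.x0 t) (frc hO) θ'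
    (fun a ha => hθ'.1 a (hO.le ha)) (fun i => by
      by_cases h : NU O (M.x t i)
      · left
        exact hθ'.2 _ ⟨t, i, hO.le, h, 1, O.one_mem, one_ne_zero, by
          rw [inv_one]; exact O.one_mem, (one_mul _).symm⟩
      · right
        exact ((not_NU_iff (hO.le (M.xA t i))).1 h).2)
  obtain ⟨y, hy⟩ := hdiv ⟨_, mem_Jd ha hb hb0 heθ⟩ ⟨_, heθ, rfl⟩
  have hy' := congrArg (Subtype.val : M.A t → E) hy
  simp only [Subalgebra.coe_mul] at hy'
  rw [hz, Derivation.smul_apply, smul_eq_mul] at hy'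
  have h1 : θ' (a * b⁻¹) / θ (a * b⁻¹) = (y : E) * ((c : E)⁻¹ * e⁻¹) := by
    have he0 := he.2.1
    have hb2 : b ^ 2 ≠ 0 := pow_ne_zero 2 hb0
    rw [div_eq_iff hθf]
    have h2 : b ^ 2 * ((c : E) * (e * θ' (a * b⁻¹))) = b ^ 2 * (θ (a * b⁻¹) * y) := by
      linear_combination hy'
    have h3 := mul_left_cancel₀ hb2 h2
    have h4 : θ' (a * b⁻¹) = (c : E)⁻¹ * e⁻¹ * ((c : E) * (e * θ' (a * b⁻¹))) := by
      field_simp
    rw [h4, h3]
    ring
  rw [h1]
  exact O.mul_mem (hO.le y.2) (O.mul_mem hci he.2.2)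

end model

theorem main (hnorm : WD_norm.{u}) : WD_finb.{u} := by
  intro k E _ _ _ _ htr s f hf
  have h1 : {O | (∃ t, IsPt (s.M.A t) O) ∧ ¬ Gd O (bdy s.M O) f} =
      ⋃ t, {O | IsPt (s.M.A t) O ∧ ¬ Gd O (bdy s.M O) f} := by
    ext O
    simp
  rw [h1]
  apply Set.finite_iUnion
  intro t
  have hsf := s.sf t
  have hsm := hsf.sm
  have hft : Algebra.FiniteType k (s.M.A t) := inferInstance
  have hN : IsNoetherianRing (s.M.A t) := Algebra.FiniteType.isNoetherianRing k _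
  have hC : IsIntegrallyClosed (s.M.A t) := hnorm k (s.M.A t)
  obtain ⟨a, ha, b, hb, hb0, rfl⟩ := hsf.fr f
  -- the ideal is nonzero
  have hne : Jd (s.M.A t) (s.M.x t) (a * b⁻¹) b ≠ ⊥ := by
    obtain ⟨D, hD⟩ := hf
    obtain ⟨e, he, heD⟩ := clear (A := s.M.A t) (O := ⊤) (s.M.xA t) (s.M.x0 t) (fun z _ => by
      obtain ⟨a, ha, b, hb, hb0, h⟩ := hsf.fr z
      exact ⟨a, ha, b, ⟨hb, hb0, Algebra.mem_top⟩, h⟩) D (fun _ _ => Algebra.mem_top)
      (fun _ => Or.inr Algebra.mem_top)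
    intro h
    have h2 : (⟨_, mem_Jd ha hb hb0 heD⟩ : s.M.A t) ∈
        Jd (s.M.A t) (s.M.x t) (a * b⁻¹) b := ⟨_, heD, rfl⟩
    rw [h, Ideal.mem_bot] at h2
    have h3 := congrArg Subtype.val h2
    simp only [Derivation.smul_apply, smul_eq_mul, ZeroMemClass.coe_zero] at h3
    exact mul_ne_zero (pow_ne_zero 2 hb0) (mul_ne_zero he.2.1 hD) h3
  have hfin := fin_alg (Pool.Agent.W973.CHAIN.main k E htr (s.M.A t) hsf) _ hne
  apply Set.Finite.of_finite_image (f := fun O => {a : s.M.A t | NU O (a : E)})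
  · apply (hfin.image (fun m : Ideal (s.M.A t) => (m : Set (s.M.A t)))).subset
    rintro _ ⟨O, ⟨hO, hbad⟩, rfl⟩
    refine ⟨hO.mx, ⟨hO.isMaximal, fun c hc => ?_⟩, rfl⟩
    by_contra h
    exact hbad (gd_of s.M hft hO ha hb hb0 h hc)
  · rintro O ⟨hO, -⟩ O' ⟨hO', -⟩ h
    apply hO.eq_of_mx hO'
    intro c hc hnu
    have h2 : (⟨c, hc⟩ : s.M.A t) ∈ {a : s.M.A t | NU O (a : E)} := hnu
    have h3 : {a : s.M.A t | NU O (a : E)} = {a : s.M.A t | NU O' (a : E)} := h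
    rw [h3] at h2
    exact h2

end Pool.Agent.W376.WD
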